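import Pool.Agent.Q126.TD.Gen
import Pool.Agent.Q126.TD.Pairs
import Pool.Agent.Results.MP_17a657_ag.RationalBranchPoints

/-!
# The Tate conjecture for divisors on almost all surfaces `y ^ ℓ = (x - c 1) ⋯ (x - c m) (x - g(t))`

Let `k` be a number field, `k'` an algebraic closure, `K = k(t)`, `F = k'(t)`, and let `c 1, …, c m` be
distinct elements of `k`. For a prime `ℓ` such that `k` contains the roots of unity of order `ℓ`, and a
polynomial `g` over `k`, let `X_{ℓ, g}` be the surface fibred over the `t`-line with the generic fibre

`C : y ^ ℓ = (x - c 1) ⋯ (x - c m) (x - g(t))`,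

the pullback by `t ↦ g(t)` of the family of the cyclic covers of degree `ℓ` of the line with the fixed
branch points `c 1, …, c m, ∞` and one moving branch point. Let `J` be the Jacobian of `C`, for `ℓ` not
dividing `m + 1` of dimension `(ℓ - 1) m / 2`. The geometric genus of `X_{ℓ, g}` tends to infinity with the
degree of `g`.

Theorem. Let `n ≥ 1`. Among the polynomials `g` of degree at most `n` with integer coefficients of
absolute value at most `H`, the proportion of those for which

for all primes `ℓ` which do not divide `n (m + 1)` and for which `k` contains a primitive root of unity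
of order `ℓ`, the Tate conjecture at `ℓ` over `k` (`TateAt`) holds for the divisors on `X_{ℓ, g}`

tends to one as `H` tends to infinity.

`TateAt` says that all the classes in `V_ℓ Sel(J / F)` which are fixed by the Galois group of `k`
come from `J(K)`; as `Br(X ⊗ k') = Ш(J / F)` (Grothendieck), this is the Tate conjecture for divisors
at `ℓ` over `k` on a smooth projective model of the surface.

The proof: by `MP_17a657_ag.RationalBranchPoints` it is sufficient that the polynomials `g - c i` are
irreducible over `k` of degree `n`. The field `k` can be embedded in `ℚ_p` for infinitely many primes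
`p`; for these primes (except finitely many) at least the proportion `1 / (24 n)` of the residue classes
modulo `p` of `g` is such that `g - c i` is irreducible modulo `p` of degree `n`, hence over `ℚ_p` and `k`.
-/

set_option autoImplicit false

namespace Pool.Agent.Results.MP_938ce2_ag.AlmostAllSuperelliptic

open Polynomial Filter Topology Pool.Agent.TH115.GD Pool.Agent.Q126.TD
open Pool.Agent.Y713.Tate (TateAt)

/-- The polynomial `(x - c 0) ⋯ (x - c (m - 1)) (x - g(t))` over `K = k(t)`. -/
noncomputable def branch (K : Type) {k : Type} [Field k] [Field K] [Algebra k[X] K] {m : ℕ}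
    (c : Fin m → k) (g : k[X]) : K[X] :=
  (∏ i, (X - C (algebraMap k[X] K (C (c i))))) * (X - C (algebraMap k[X] K g))

/-- The set of the integer polynomials `g` such that the Tate conjecture for the divisors at `ℓ` holds
for the surfaces `y ^ ℓ = (x - c 0) ⋯ (x - c (m - 1)) (x - g(t))`, for all primes `ℓ` which do not divide
`n (m + 1)` and for which `k` contains a primitive root of unity of order `ℓ`. -/
def Good (n : ℕ) (k k' K F : Type) [Field k] [Field k'] [Algebra k k'] [Field K] [Algebra k[X] K]
    [Field F] [Algebra k'[X] F] [IsFractionRing k'[X] F] [Algebra K F] {m : ℕ} (c : Fin m → k) :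
    Set ℤ[X] :=
  {g | ∀ ℓ : ℕ, ℓ.Prime → ¬ ℓ ∣ n * (m + 1) → (∃ ζ : k, IsPrimitiveRoot ζ ℓ) →
    TateAt (F := F) ℓ k' (branch K c (g.map (Int.castRingHom k)))}

/-- **The Tate conjecture for divisors on almost all surfaces
`y ^ ℓ = (x - c 0) ⋯ (x - c (m - 1)) (x - g(t))` over a number field.** -/
theorem result (n m : ℕ) (hn : 1 ≤ n) {k k' K F : Type} [Field k] [NumberField k]
    [Field k'] [Algebra k k'] [Field K] [Algebra k[X] K] [Field F] [Algebra k'[X] F]
    [IsFractionRing k'[X] F] [Algebra K F] (hT : IsTower k k' K F) {c : Fin m → k}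
    (hc : Function.Injective c) :
    Tendsto (fun H : ℕ => ((polys n H ∩ Good n k k' K F c).ncard : ℝ) / (polys n H).ncard)
      atTop (𝓝 1) := by
  apply tendsto_polys
  have h1 := Full.all fun i => irr_sub_const (k := k) (n := n) (by omega) (c i)
  refine (h1.inter (irr_sub_const (k := k) (n := n) (by omega) 0)).mono ?_
  rintro v ⟨hv, -, hd⟩ ℓ hℓ hdiv ⟨ζ, hζ⟩
  rw [C_0, sub_zero] at hd
  set g := (pol v).map (Int.castRingHom k) with hg
  have hi : ∀ i, Irreducible (g - C (c i)) := fun i => (Set.mem_iInter.1 hv i).1
  have h2 := Pool.Agent.Results.MP_17a657_ag.RationalBranchPoints.movingPoint (F := F) hT hℓ hζ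
    (fun h => hdiv (h.mul_left _)) hc (g := g) (fun i => ⟨hi i, (hi i).separable⟩)
    (by rw [hd]; exact fun h => hdiv (h.mul_right _))
  have e : Pool.Agent.Results.MP_17a657_ag.RationalBranchPoints.branchPoly K
      (Fin.snoc (fun i => C (c i)) g : Fin (m + 1) → k[X]) = branch K c g := by
    unfold Pool.Agent.Results.MP_17a657_ag.RationalBranchPoints.branchPoly branch
    rw [Fin.prod_univ_castSucc]
    simp only [Fin.snoc_castSucc, Fin.snoc_last]
  rw [e] at h2
  exact h2

end Pool.Agent.Results.MP_938ce2_ag.AlmostAllSuperelliptic
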