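import Mathlib
import Pool.Agent.TH118.MT.Main
import Pool.Agent.TH118.IS.Two

/-!
# The Tate conjecture for the powers of abelian varieties with a place of isolated finite inertia

Let `A` be an abelian variety over a number field (or a finitely generated field of complex numbers),
`W = H_1(A, ℚ)` with the polarization form `ω₀`, `T` the tangent space at the origin and `per : W → T`
the inclusion; `V = ℚ_ℓ ⊗ W` is the rational Tate module, with the action `ρ` of the Galois group `Γ`
and the cyclotomic character `χ`.  Let `K` be the algebraic closure of `ℚ_ℓ` and `X = K ⊗ V`.  A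
subspace of `X` is *strongly irreducible* (`SI`) if it is a minimal nonzero subspace stable under a
subgroup of finite index.

Hypotheses.

* `hss`, `hF`: the theorems of Faltings (semisimplicity; the endomorphisms of `V` which commute with
  an open subgroup of the Galois group are combinations of endomorphisms of `A`).
* `hE`, `hni`: `X` is the sum of strongly irreducible subspaces `E i` which are not isotropic for the
  Weil pairing.  If the endomorphism ring of `A` over the algebraic closure is `ℤ` there is just one,
  `E = X`; if the endomorphism algebra is a totally real field or a totally indefinite quaternion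
  algebra (types I and II of Albert) they correspond to the embeddings of the centre in `K`.
* `hiso`: for each `i` there is an element `γ` of the group (in an inertia group at a place where `A`
  has potentially good reduction), of finite order on `X`, whose eigenvalues on `E i` are divided
  into two nonempty sets, stable under the duality `α ↦ χ(γ) / α`, such that for `α` in the first and
  `β` in the second set

  * the eigenspace for `α` or the eigenspace for `β` is one-dimensional,
  * `β / α` is the quotient of no other pair of eigenvalues on `E i`, except of the dual pair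
    `χ(γ) / β`, `χ(γ) / α`,
  * geometric progressions of length three with the quotient `β / α` in the set of eigenvalues of
    `γ` on some `E j` are self-dual, with one-dimensional outer eigenspaces.

* `hfrob`: for each `i` there is a diagonalizable element of the group (a Frobenius element) with two
  eigenvectors in `E i` such that the quotient of the eigenvalues is not a root of unity.

Theorem.  All Tate classes in all the tensor powers `(H^1)^{⊗ 2 m}(m)` are linear combinations of
Hodge classes which are products of Hodge classes of degree two.  So the Tate conjecture and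
the Hodge conjecture are true for all powers of `A`, in all codimensions, the Mumford-Tate conjecture
is true for `A`, and the Mumford-Tate group is the full group of the symplectic similitudes which
commute with the endomorphisms of `A`.

Example.  Let the endomorphism ring of `A` over the algebraic closure be `ℤ`, and let the inertia
group at a place `v`, prime to `ℓ`, act on `V` through a finite cyclic group with a generator `γ`
which has the eigenvalue `1` and, besides, only simple eigenvalues, all of which have odd exponent
as powers of a root of unity of even order (and are different from `-1`).  Then the theorem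
applies: the product of two of the latter is an even power, so it is an eigenvalue only if it is
`1`. This is the case if all eigenvalues different from `1` are primitive roots of unity of the same
even order `N ≥ 4`, each of them simple; for instance for the Jacobian `A` of a curve which has at
`v` a regular model whose special fibre has one singularity with the equation
`y ^ 2 = x ^ (2 m + 1)` and no other singularities (type `A_{2 m}`; the residue characteristic is
prime to `2 (2 m + 1)`).  Here the eigenvalues are the numbers `-z`, where `z` is a root of unity of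
order dividing `2 m + 1` and different from `1`. There is no condition on `m` and on the dimension of
`A`.  The case `m = 1` (a cusp) is in the starting files (`CuspMumfordTate` for `MP_33b3f9_ag`), and
`(2 m) ^ 2 < 2 (2 g - 2 m)` is `SmallRankProducts` for `MP_3703a7_ag`.

The main step (`iso_pt`) is a theorem of the starting files which was not handed in.
-/

set_option autoImplicit false

namespace Pool.Agent.Results.MP_938ce2_ag.IsolatedInertia

open Module TensorProduct Pool.Agent.H204R3.SP Pool.Agent.H204R3.GP Pool.Agent.W522.U
open Pool.Agent.TH118.CR Pool.Agent.TH118.CU Pool.Agent.TH118.MT Pool.Agent.TH118.IS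

/-- **The Tate conjecture, the Hodge conjecture and the Mumford-Tate conjecture for all powers of
abelian varieties with elements of finite order with isolated pairs of eigenvalues.** -/
theorem result (ℓ : ℕ) [Fact ℓ.Prime]
    -- the complex abelian variety `A` with a polarization
    {W T : Type} [AddCommGroup W] [Module ℚ W] [FiniteDimensional ℚ W] [AddCommGroup T] [Module ℂ T]
    (per : W →+ T) (ω₀ : W →ₗ[ℚ] W →ₗ[ℚ] ℚ) (halt : ∀ v, ω₀ v v = 0)
    (hnondeg : ∀ u, (∀ v, ω₀ v u = 0) → u = 0) (hω₀ : IsHodgeBilinear per ω₀)
    -- the action of the Galois group on the Tate module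
    {Γ : Type} [Group Γ] (ρ : Representation ℚ_[ℓ] Γ (ℚ_[ℓ] ⊗[ℚ] W)) (χ : Γ →* ℚ_[ℓ])
    (hω : ∀ s u v, bcb ℚ_[ℓ] ω₀ (ρ s u) (ρ s v) = χ s * bcb ℚ_[ℓ] ω₀ u v)
    -- the theorems of Faltings
    (hss : FiniteIndexSemisimple ρ) (hF : FaltingsEnd per (incl ℚ_[ℓ] W) ρ)
    -- the elements of finite order and the Frobenius elements
    {I : Type} (E : I → Submodule (AlgebraicClosure ℚ_[ℓ])
      (AlgebraicClosure ℚ_[ℓ] ⊗[ℚ_[ℓ]] (ℚ_[ℓ] ⊗[ℚ] W)))
    (hE : SumOfSI (bcr ρ (AlgebraicClosure ℚ_[ℓ])) E)
    (hni : NotIsotropic E (bcb (AlgebraicClosure ℚ_[ℓ]) (bcb ℚ_[ℓ] ω₀)))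
    (hiso : HasIsolatedPairs (bcr ρ (AlgebraicClosure ℚ_[ℓ])) (bcc χ (AlgebraicClosure ℚ_[ℓ])) E)
    (hfrob : HasFrobenii (bcr ρ (AlgebraicClosure ℚ_[ℓ])) E) :
    MumfordTateStrong per (incl ℚ_[ℓ] W) ρ χ := by
  classical
  have hl1 : ∀ u, (∀ v, bcb ℚ_[ℓ] ω₀ u v = 0) → u = 0 :=
    fun u hu => bcb_nondeg_left ω₀ hnondeg (left_nondeg ω₀ halt hnondeg) u hu
  have hr1 : ∀ u, (∀ v, bcb ℚ_[ℓ] ω₀ v u = 0) → u = 0 :=
    fun u hu => bcb_nondeg_right ω₀ hnondeg (left_nondeg ω₀ halt hnondeg) u hu
  refine mumfordTate_of per (incl ℚ_[ℓ] W) ρ χ (bcb ℚ_[ℓ] ω₀) hl1 hω ω₀ hω₀ (fun x y => ?_) hF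
    fun m φ hφ => ?_
  · rw [incl_apply, incl_apply, bcb_one, eq_ratCast]
  · refine tate_descent_any (Ω := AlgebraicClosure ℚ_[ℓ]) (Module.finBasis ℚ_[ℓ] _) ρ χ
      (fun φ' hφ' => ?_) φ hφ
    exact iso_pt (bcb (AlgebraicClosure ℚ_[ℓ]) (bcb ℚ_[ℓ] ω₀))
      (bcb_alt (Ω := AlgebraicClosure ℚ_[ℓ]) (bcb ℚ_[ℓ] ω₀) (bcb_alt (Ω := ℚ_[ℓ]) ω₀ halt))
      (fun u hu => bcb_nondeg_left (bcb ℚ_[ℓ] ω₀) hr1 hl1 u hu)
      (bcb_inv (Ω := AlgebraicClosure ℚ_[ℓ]) ρ χ (bcb ℚ_[ℓ] ω₀) hω) (hasProj_bcr ρ _ hss) hE hni
      hiso hfrob φ' hφ'

end Pool.Agent.Results.MP_938ce2_ag.IsolatedInertia
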