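import Pool.Agent.Q69.MTQ.Fin

/-!
# The Tate conjecture for an abelian variety is the Hodge conjecture and one class of degree four

Let `A` be an abelian variety over a number field `K` embedded in the complex numbers (there is no
condition on the dimension, the endomorphisms or the reduction of `A`), and `ℓ` a prime number.
There is ONE class `Θ` in `(H^1(A, ℚ_ℓ) ^ {⊗ 4}) (2)`, a subspace of `H^4(A ^ 4, ℚ_ℓ(2))`, fixed by
the whole Galois group `Γ` of `K`, such that the Tate conjecture for `A` and all its powers (all
codimensions, over all finite extensions of `K`) is equivalent to the following two statements: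

* the Hodge conjecture for `A` and its powers (the Hodge classes are algebraic, with coefficients
  in `ℚ_ℓ`);
* the class `Θ` is algebraic (it is a class of codimension two on `A ^ 4`).

The algebraic classes enter only through the spaces `Alg m` they span in the spaces
`(H^1) ^ {⊗ 2 m} (m)`, of which the cohomology groups of the powers of `A` are direct summands; all
that is used is that the class of a cycle is a Hodge class.  `Θ` does not depend on `Alg`.

Method: see the hand-in `MP_6c781a_ag.OneQuarticClass`; `Θ` is given by the Casimir element of the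
Lie algebra of the endomorphisms of the Tate module which kill all Tate classes, and if `Θ` is a
Hodge class then all Tate classes are linear combinations of Hodge classes.

In the Lean statement `W` is `H_1(A, ℚ)`, `T` the tangent space at the origin and `per : W → T` the
inclusion, `ω₀` is a Riemann form (polarization); `ℚ_ℓ ⊗ W` is the rational Tate module with the
action `ρ` of the compact group `Γ` and the Weil pairing `ω`; `χ` is the cyclotomic character.  The
hypotheses `hss`, `hF` are the theorems of Faltings, `hD` is the theorem of Deligne (Hodge classes are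
Tate classes) and `hC` the theorem on centres (the Mumford-Tate conjecture is true for the centres;
Vasiu, Ullmo-Yafaev).
-/

set_option autoImplicit false

namespace Pool.Agent.Results.MP_938ce2_ag.OneQuarticClass

open TensorProduct Pool.Agent.W516.MTD Pool.Agent.Q69.MTQ

/-- **The Tate conjecture for the powers of an abelian variety is equivalent to the Hodge conjecture
for them and the algebraicity of one class of codimension two on `A ^ 4`, fixed by the Galois
group.** -/
theorem result (ℓ : ℕ) [Fact ℓ.Prime]
    -- the complex torus `A(ℂ)` with a polarization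
    {W T : Type} [AddCommGroup W] [Module ℚ W] [FiniteDimensional ℚ W] [AddCommGroup T]
    [Module ℂ T] (per : W →+ T) (hper : IsRationalStructure per)
    (ω₀ : W →ₗ[ℚ] W →ₗ[ℚ] ℚ) (hω₀ : IsRiemannForm per ω₀)
    -- the Galois group, its action on the Tate module, the cyclotomic character, the Weil pairing
    {Γ : Type} [Group Γ] [TopologicalSpace Γ] [IsTopologicalGroup Γ] [CompactSpace Γ]
    (ρ : Representation ℚ_[ℓ] Γ (ℚ_[ℓ] ⊗[ℚ] W)) (hρ : ContinuousRep ρ)
    (χ : Γ →* ℚ_[ℓ]) (hχ : Continuous χ)
    (ω : ℚ_[ℓ] ⊗[ℚ] W →ₗ[ℚ_[ℓ]] ℚ_[ℓ] ⊗[ℚ] W →ₗ[ℚ_[ℓ]] ℚ_[ℓ])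
    (hωω : ∀ u v : W, ω ((1 : ℚ_[ℓ]) ⊗ₜ[ℚ] u) ((1 : ℚ_[ℓ]) ⊗ₜ[ℚ] v) = ((ω₀ u v : ℚ) : ℚ_[ℓ]))
    (hωρ : ∀ s u v, ω (ρ s u) (ρ s v) = χ s * ω u v)
    -- the theorems of Faltings and Deligne and the theorem on centres
    (hss : Semisimple ρ) (hF : Faltings per ρ) (hD : Deligne per ρ χ) (hC : Centres per ρ χ) :
    ∃ Θ : Form ℚ_[ℓ] W 2, IsFixed ρ χ 2 Θ ∧
      ∀ Alg : ∀ m : ℕ, Submodule ℚ_[ℓ] (Form ℚ_[ℓ] W m), ConsistsOfHodgeClasses per Alg →
        (TateConjecture ρ χ Alg ↔ HodgeConjecture per Alg ∧ Θ ∈ Alg 2) := by
  obtain ⟨Θ, h1, -, h3⟩ := one_class per ρ χ ω₀ ω hper hω₀ hωω hωρ hρ hχ hss hF hD hC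
  exact ⟨Θ, h1, h3⟩

end Pool.Agent.Results.MP_938ce2_ag.OneQuarticClass
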