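import Pool.Agent.Q69.ZO.Cmp

/-!
# The zero-one law for Tate classes

Let `X` be a smooth projective variety over the algebraic closure `k` of a number field (or of a
finitely generated field of characteristic zero) such that the Hodge classes on the powers of `X`
are Tate classes (this is a theorem of Deligne for abelian varieties, it is known for K3 surfaces,
and it follows from the Hodge conjecture). Then

* either all Tate classes on all powers of `X` are `ℚ_ℓ`-combinations of Hodge classes,
* or asymptotically almost no Tate class on the powers of `X` is a combination of Hodge classes: the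
  quotient of the dimensions of the space of the Hodge classes (over `ℚ`) and of the space of the
  Tate classes (over `ℚ_ℓ`) on `X ^ n` converges to `0`.

So if the Hodge conjecture is true for all powers of `X`, then either the Tate conjecture is true for
all powers of `X` in all codimensions, or asymptotically zero percent of the Tate classes on the
powers of `X` are algebraic.
-/

set_option autoImplicit false

open CategoryTheory AlgebraicGeometry Filter Topology

universe u w

namespace Pool.Agent.Results.MP_938ce2_ag.ZeroOneLaw

open Pool.Agent.H914 Pool.Agent.H914.VarClass Pool.Agent.H914.VarClass.Obj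
  Pool.Agent.H914.WeilCohomology Pool.Agent.Y121.AHS Pool.Agent.Q69.ZO
open Pool.Agent.Y133.Half (pw dimOf algDim)

variable {k : Type u} [Field k] {𝒱 : VarClass k} {ops : CycleOps 𝒱}

/-- The dimension over `ℚ` of the space spanned by the Hodge classes of all codimensions on `Z`. -/
noncomputable def hodgeDim (T : HodgeTheory ops) (Z : 𝒱.Obj) : ℕ :=
  dimOf T.W {c : T.W.H Z | ∃ j, IsHodge T Z j c}

/-- The Hodge conjecture holds for `Z` in all codimensions. -/
def HodgeConj (T : HodgeTheory ops) (Z : 𝒱.Obj) : Prop :=
  ∀ j (c : T.W.H Z), IsHodge T Z j c → c ∈ spanCycles T.W Z j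

section

variable {V : WeilCohomology.{u, 0} ops} {Γ : Type w} [Group Γ]

/-- The dimension of the space spanned by the Tate classes of all codimensions on `Z`. -/
noncomputable def tateDim (G : GalAct V Γ) (Z : 𝒱.Obj) : ℕ :=
  dimOf V {c : V.H Z | ∃ j, G.IsTate Z j c}

/-- The Tate conjecture holds for `Z` in all codimensions. -/
def TateConj (G : GalAct V Γ) (Z : 𝒱.Obj) : Prop :=
  ∀ j (c : V.H Z), G.IsTate Z j c → c ∈ spanCycles V Z j

end

/-- **The zero-one law for Tate classes.** -/
theorem result (T : HodgeTheory ops) {V : WeilCohomology.{u, 0} ops} (C : Comparison T.W V)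
    {Γ : Type w} [Group Γ] (G : GalAct V Γ) (X : 𝒱.Obj) [Nontrivial (T.W.H X)] :
    ((∀ n j c, IsHodge T (pw X n) j c → G.IsTate (pw X n) j (C.em (pw X n) c)) →
      (∀ n j c, G.IsTate (pw X n) j c → c ∈ hodgeSpan C (pw X n)) ∨
        Tendsto (fun n => (hodgeDim T (pw X n) : ℝ) / tateDim G (pw X n)) atTop (𝓝 0)) ∧
    ((∀ n, HodgeConj T (pw X n)) →
      (∀ n, TateConj G (pw X n)) ∨
        Tendsto (fun n => (algDim T.W (pw X n) : ℝ) / tateDim G (pw X n)) atTop (𝓝 0)) := by
  have h1 : (∀ n j c, IsHodge T (pw X n) j c → G.IsTate (pw X n) j (C.em (pw X n) c)) →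
      (∀ n j c, G.IsTate (pw X n) j c → c ∈ hodgeSpan C (pw X n)) ∨
        Tendsto (fun n => (hodgeDim T (pw X n) : ℝ) / tateDim G (pw X n)) atTop (𝓝 0) :=
    fun h => C.zero_one G.pred h
  refine ⟨h1, fun hHC => ?_⟩
  have h2 : ∀ n, algDim T.W (pw X n) = hodgeDim T (pw X n) := fun n =>
    algDim_eq_hodge T (hHC n)
  rcases h1 fun n j c hc => Pool.Agent.Y133.Half.ClassPred.span_le (Q := G.pred)
    (C.em_alg (hHC n j c hc)) with h | h
  · left
    intro n j c hc
    exact Comparison.mem_spanCycles (hHC n) (h n j c hc) hc.1
  · right
    simp only [h2]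
    exact h

end Pool.Agent.Results.MP_938ce2_ag.ZeroOneLaw
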